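import Pool.Agent.Helper58.LC.Goals

/-!
Project LC (MP_957450_co), packet LC-WO1 (helper50): an order of the lines with few changes.
-/

set_option autoImplicit false

open Classical Finset

namespace Pool.Agent.Helper50.LC.WO1

open Pool.Agent.Helper58.LC

theorem sqrt_step (k : ℝ) (hk : 1 ≤ k) : 1 / (2 * √k) + √(k - 1) ≤ √k := by
  have h0 : 0 < √k := Real.sqrt_pos.2 (by linarith)
  have h1 : √k * √k = k := Real.mul_self_sqrt (by linarith)
  have hs1 : 1 ≤ √k := by
    rw [show (1 : ℝ) = √1 by simp]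
    exact Real.sqrt_le_sqrt hk
  have h2 : √(k - 1) ≤ √k - 1 / (2 * √k) := by
    refine Real.sqrt_le_iff.2 ⟨?_, ?_⟩
    · rw [sub_nonneg, div_le_iff₀ (by positivity)]
      nlinarith
    · have h3 : (√k - 1 / (2 * √k)) ^ 2 = k - 1 + (1 / (2 * √k)) ^ 2 := by
        field_simp
        ring_nf
        have h4 : √k ^ 2 = k := by rw [sq]; exact h1
        have h5 : √k ^ 4 = k ^ 2 := by
          rw [show (√k) ^ 4 = (√k ^ 2) ^ 2 by ring, h4]
        rw [h5, h4]
        ring
      rw [h3]
      have : 0 ≤ (1 / (2 * √k)) ^ 2 := by positivity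
      linarith
  linarith

theorem pair (hS : SE) (I J : Type) [Fintype I] (x y : I → ℝ) (α β : J → ℝ) (q : ℕ)
    (Q : Finset J) (w : I → ℝ) (hw : ∀ i, 0 ≤ w i) (hq : 1 ≤ q) (hQ : Q.card ^ 2 ≤ 2 ^ q)
    (hW : 0 < ∑ i, w i) (h2 : 2 ≤ Q.card) :
    ∃ j ∈ Q, ∃ j' ∈ Q, j ≠ j' ∧
      √(Q.card : ℝ) * ∑ i ∈ univ.filter
        (fun i => ¬ (α j * x i + β j < y i ↔ α j' * x i + β j' < y i)), w i ≤
      4 * q * ∑ i, w i := by
  have hq' : (1 : ℝ) ≤ q := by exact_mod_cast hq
  by_cases hc : √(Q.card : ℝ) < 2 * q + 2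
  · obtain ⟨j, hj, j', hj', hne⟩ := Finset.one_lt_card.1 (show 1 < Q.card by omega)
    refine ⟨j, hj, j', hj', hne, ?_⟩
    refine mul_le_mul (by linarith) ?_ (Finset.sum_nonneg fun i _ => hw i) (by positivity)
    exact Finset.sum_le_univ_sum_of_nonneg hw
  · push Not at hc
    obtain ⟨a, ha⟩ : ∃ a : ℕ, a = ⌊(√(Q.card : ℝ) - 1) / q⌋₊ := ⟨_, rfl⟩
    have hq0 : (0 : ℝ) < q := by linarith
    have h3 : (0 : ℝ) ≤ (√(Q.card : ℝ) - 1) / q := div_nonneg (by linarith) hq0.le
    have ha1 : (a : ℝ) ≤ (√(Q.card : ℝ) - 1) / q := by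
      rw [ha]
      exact Nat.floor_le h3
    have ha2 : (√(Q.card : ℝ) - 1) / q < a + 1 := by
      rw [ha]
      exact Nat.lt_floor_add_one _
    have ha3 : (a : ℝ) * q ≤ √(Q.card : ℝ) - 1 := by
      rwa [le_div_iff₀ hq0] at ha1
    have ha4 : √(Q.card : ℝ) - 1 < (a + 1) * q := by
      rwa [div_lt_iff₀ hq0] at ha2
    have ha5 : √(Q.card : ℝ) ≤ 2 * q * a := by nlinarith
    have hsq : √(Q.card : ℝ) * √(Q.card : ℝ) = Q.card := Real.mul_self_sqrt (by positivity)
    have ha6 : 1 ≤ a := by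
      by_contra h
      have : a = 0 := by omega
      rw [this] at ha5
      simp at ha5
      have : √(Q.card : ℝ) = 0 := le_antisymm (by simpa using ha5) (Real.sqrt_nonneg _)
      rw [this] at hc
      linarith
    have ha7 : (a * q) ^ 2 + 1 < Q.card := by
      have h4 : ((a : ℝ) * q) ^ 2 ≤ (√(Q.card : ℝ) - 1) ^ 2 :=
        pow_le_pow_left₀ (by positivity) ha3 2
      have h5 : (((a * q) ^ 2 + 1 : ℕ) : ℝ) < ((Q.card : ℕ) : ℝ) := by
        push_cast
        nlinarith
      exact_mod_cast h5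
    obtain ⟨j, hj, j', hj', hne, h6⟩ := hS I J x y α β w Q a q hw hW ha6 hq hQ ha7
    refine ⟨j, hj, j', hj', hne, ?_⟩
    obtain ⟨Z, hZ⟩ : ∃ Z, Z = ∑ i ∈ univ.filter
        (fun i => ¬ (α j * x i + β j < y i ↔ α j' * x i + β j' < y i)), w i := ⟨_, rfl⟩
    rw [← hZ] at h6 ⊢
    have hZ0 : 0 ≤ Z := by
      rw [hZ]
      exact Finset.sum_nonneg fun i _ => hw i
    calc √(Q.card : ℝ) * Z ≤ 2 * q * a * Z := mul_le_mul_of_nonneg_right ha5 hZ0
      _ = 2 * q * (a * Z) := by ring
      _ ≤ 2 * q * ∑ i, w i := mul_le_mul_of_nonneg_left h6 (by positivity)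
      _ ≤ 4 * q * ∑ i, w i := by
          have : 0 ≤ (q : ℝ) * ∑ i, w i := by positivity
          nlinarith

theorem t (hS : SE) (hI : INS) : WO1 := by
  intro I J _ x y α β q Q w hw hq
  obtain ⟨k, hk⟩ : ∃ k, k = Q.card := ⟨_, rfl⟩
  induction k generalizing Q w with
  | zero =>
    intro _
    have hQ0 : Q = ∅ := Finset.card_eq_zero.1 hk.symm
    refine ⟨[], List.nodup_nil, by simp [hQ0], ?_⟩
    simp [ch, hQ0]
  | succ n ih =>
    intro hQ
    have hq' : (1 : ℝ) ≤ q := by exact_mod_cast hq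
    by_cases hn : n = 0
    · obtain ⟨j, hj⟩ := Finset.card_eq_one.1 (show Q.card = 1 by omega)
      refine ⟨[j], List.nodup_singleton j, by simp [hj], ?_⟩
      have h1 : ∑ i, w i * 2 ^ ch (fun j => decide (α j * x i + β j < y i)) [j] = ∑ i, w i := by
        simp [ch]
      rw [h1]
      refine le_mul_of_one_le_right (Finset.sum_nonneg fun i _ => hw i) ?_
      exact Real.one_le_exp (by positivity)
    by_cases hW : ∑ i, w i = 0
    · have h1 : ∀ i, w i = 0 := by
        intro i
        exact (Finset.sum_eq_zero_iff_of_nonneg fun i _ => hw i).1 hW i (mem_univ i)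
      refine ⟨Q.toList, Q.nodup_toList, by simp, ?_⟩
      simp [h1]
    have hW' : 0 < ∑ i, w i := lt_of_le_of_ne (Finset.sum_nonneg fun i _ => hw i) (Ne.symm hW)
    obtain ⟨j, hj, j', hj', hne, hsep⟩ := pair hS I J x y α β q Q w hw hq hQ hW' (by omega)
    obtain ⟨w', hw'⟩ : ∃ w' : I → ℝ, ∀ i, w' i = w i +
        (if ¬ (α j * x i + β j < y i ↔ α j' * x i + β j' < y i) then 3 * w i else 0) :=
      ⟨_, fun _ => rfl⟩
    have hcard : n = (Q.erase j).card := by
      rw [Finset.card_erase_of_mem hj]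
      omega
    have hw'0 : ∀ i, 0 ≤ w' i := by
      intro i
      rw [hw' i]
      have := hw i
      split_ifs <;> linarith
    have hQ2 : (Q.erase j).card ^ 2 ≤ 2 ^ q := by
      refine le_trans ?_ hQ
      exact Nat.pow_le_pow_left (Finset.card_le_card (Finset.erase_subset j Q)) 2
    obtain ⟨l, hl1, hl2, hl3⟩ := ih (Q.erase j) w' hw'0 hcard hQ2
    have hj'l : j' ∈ l := by
      rw [← List.mem_toFinset, hl2]
      exact Finset.mem_erase.2 ⟨hne.symm, hj'⟩
    obtain ⟨l', hp, hch⟩ := hI J l j j' hj'l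
    have hjl : j ∉ l := by
      rw [← List.mem_toFinset, hl2]
      simp
    refine ⟨l', ?_, ?_, ?_⟩
    · exact hp.nodup_iff.2 (List.nodup_cons.2 ⟨hjl, hl1⟩)
    · rw [List.toFinset_eq_of_perm _ _ hp, List.toFinset_cons, hl2, Finset.insert_erase hj]
    · have hk0 : (1 : ℝ) ≤ (Q.card : ℝ) := by
        exact_mod_cast (show 1 ≤ Q.card by omega)
      have hs0 : 0 < √(Q.card : ℝ) := Real.sqrt_pos.2 (by linarith)
      have hA : ∑ i, w i * 2 ^ ch (fun j => decide (α j * x i + β j < y i)) l' ≤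
          ∑ i, w' i * 2 ^ ch (fun j => decide (α j * x i + β j < y i)) l := by
        refine Finset.sum_le_sum fun i _ => ?_
        have h1 := hch (fun j => decide (α j * x i + β j < y i))
        rw [hw' i]
        by_cases hs : (α j * x i + β j < y i ↔ α j' * x i + β j' < y i)
        · have h2 : decide (α j * x i + β j < y i) = decide (α j' * x i + β j' < y i) := by
            simpa using hs
          simp only [h2, if_true, mul_zero, add_zero] at h1
          rw [if_neg (not_not.2 hs), add_zero]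
          exact mul_le_mul_of_nonneg_left (pow_le_pow_right₀ (by norm_num) h1) (hw i)
        · have h2 : ¬ (decide (α j * x i + β j < y i) = decide (α j' * x i + β j' < y i)) := by
            simpa using hs
          simp only [if_neg h2, mul_one] at h1
          rw [if_pos hs]
          have h3 : (2 : ℝ) ^ ch (fun j => decide (α j * x i + β j < y i)) l' ≤
              2 ^ (ch (fun j => decide (α j * x i + β j < y i)) l + 2) :=
            pow_le_pow_right₀ (by norm_num) h1
          rw [pow_add] at h3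
          have h4 := mul_le_mul_of_nonneg_left h3 (hw i)
          linarith
      have hB : ∑ i, w' i ≤ (∑ i, w i) * Real.exp (12 * q / √(Q.card : ℝ)) := by
        have h1 : ∑ i, w' i = ∑ i, w i + 3 * ∑ i ∈ univ.filter
            (fun i => ¬ (α j * x i + β j < y i ↔ α j' * x i + β j' < y i)), w i := by
          rw [Finset.sum_congr rfl fun i _ => hw' i, Finset.sum_add_distrib, Finset.mul_sum,
            Finset.sum_filter]
        rw [h1]
        obtain ⟨Z, hZ⟩ : ∃ Z, Z = ∑ i ∈ univ.filter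
          (fun i => ¬ (α j * x i + β j < y i ↔ α j' * x i + β j' < y i)), w i := ⟨_, rfl⟩
        rw [← hZ] at hsep ⊢
        have h2 : Z ≤ 4 * q / √(Q.card : ℝ) * ∑ i, w i := by
          rw [div_mul_eq_mul_div, le_div_iff₀ hs0]
          linarith
        have h3 : 12 * q / √(Q.card : ℝ) + 1 ≤ Real.exp (12 * q / √(Q.card : ℝ)) :=
          Real.add_one_le_exp _
        have h4 := mul_le_mul_of_nonneg_left h3 hW'.le
        have h5 : (12 : ℝ) * q / √(Q.card : ℝ) = 3 * (4 * q / √(Q.card : ℝ)) := by ring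
        refine le_trans ?_ h4
        rw [h5]
        linarith
      have hC : ((Q.erase j).card : ℝ) = (Q.card : ℝ) - 1 := by
        rw [Finset.card_erase_of_mem hj]
        rw [Nat.cast_sub (by omega)]
        simp
      rw [hC] at hl3
      have hD := sqrt_step (Q.card : ℝ) hk0
      refine hA.trans (hl3.trans ?_)
      calc (∑ i, w' i) * Real.exp (24 * q * √((Q.card : ℝ) - 1))
          ≤ ((∑ i, w i) * Real.exp (12 * q / √(Q.card : ℝ))) *
            Real.exp (24 * q * √((Q.card : ℝ) - 1)) :=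
          mul_le_mul_of_nonneg_right hB (Real.exp_nonneg _)
        _ = (∑ i, w i) * Real.exp (24 * q * (1 / (2 * √(Q.card : ℝ)) + √((Q.card : ℝ) - 1))) := by
          rw [mul_assoc, ← Real.exp_add]
          congr 2
          field_simp
          ring
        _ ≤ (∑ i, w i) * Real.exp (24 * q * √(Q.card : ℝ)) := by
          refine mul_le_mul_of_nonneg_left (Real.exp_le_exp.2 ?_) hW'.le
          exact mul_le_mul_of_nonneg_left hD (by positivity)

end Pool.Agent.Helper50.LC.WO1
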